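import Mathlib

set_option autoImplicit false

/-!
The reducibility `≤_btte` and its degrees: definitions.
-/

namespace Pool.Agent.X235.Btte

/-- A set of pairs `(x, D)` with `x` a natural number and `D` a finite set of natural numbers,
given by a list of its elements. -/
abbrev Oper := ℕ → List ℕ → Prop

/-- `Ψ` is an enumeration operator: it is recursively enumerable. -/
def IsEnum (Ψ : Oper) : Prop := REPred fun p : ℕ × List ℕ => Ψ p.1 p.2

/-- `Ψ^B`: the set of all `x` such that `(x, D) ∈ Ψ` for some `D ⊆ B`. -/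
def app (Ψ : Oper) (B : Set ℕ) : Set ℕ := {x | ∃ D, Ψ x D ∧ ∀ y ∈ D, y ∈ B}

/-- `⋃ ε_x`: the union of all `D` with `(x, D) ∈ Ψ`. -/
def supp (Ψ : Oper) (x : ℕ) : Set ℕ := {y | ∃ D, Ψ x D ∧ y ∈ D}

/-- `Ψ` is btt-like: for some `n`, every `⋃ ε_x` has at most `n` elements. -/
def BttLike (Ψ : Oper) : Prop := ∃ n : ℕ, ∀ x, (supp Ψ x).encard ≤ n

/-- `A ≤_btte B` -/
def Btte (A B : Set ℕ) : Prop := ∃ Ψ : Oper, IsEnum Ψ ∧ BttLike Ψ ∧ A = app Ψ B

/-- `K` is an m-complete r.e. set (such as the halting set). -/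
def MComplete (K : Set ℕ) : Prop :=
  REPred (fun n => n ∈ K) ∧ ∀ S : ℕ → Prop, REPred S →
    ∃ f : ℕ → ℕ, Computable f ∧ ∀ n, S n ↔ f n ∈ K

/-- The halting set: all `e` such that the `e`-th partial recursive function is defined at `e`. -/
def Halt : Set ℕ := {e | ((Denumerable.ofNat Nat.Partrec.Code e).eval e).Dom}

end Pool.Agent.X235.Btte
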