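import Pool.Agent.X235.Btte.Slow

set_option autoImplicit false

/-!
There are only countably many minimal covers of `0'`.
-/

namespace Pool.Agent.X235.Btte

open Encodable Pool.Agent.Helper446

/-- the thinned out version of `C` -/
def AC (C : Set ℕ) : Set ℕ := {y | y.unpair.1 ∈ C ∧ y.unpair.2 = ii y.unpair.1}

theorem mem_AC {C : Set ℕ} {z : ℕ} : Nat.pair z (ii z) ∈ AC C ↔ z ∈ C := by
  unfold AC
  simp

theorem ii_eq_iff {z u : ℕ} : u = ii z ↔ (u = 0 ∨ L z (u - 1)) ∧ ¬ L z u := by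
  rw [L_iff, L_iff]
  constructor
  · rintro rfl
    refine ⟨?_, lt_irrefl _⟩
    by_cases h : ii z = 0
    · exact Or.inl h
    · exact Or.inr (by omega)
  · rintro ⟨h1 | h1, h2⟩ <;> omega

theorem AC_le {K C : Set ℕ} (hK : MComplete K) (hC : Btte Kᶜ C) : Btte (jn (AC C) Kᶜ) C := by
  classical
  refine jn_le ?_ hC
  refine Btte.trans (B := jn C Kᶜ) ?_ (jn_le (Btte.refl C) hC)
  have hL : REPred fun y : ℕ => L y.unpair.1 y.unpair.2 :=
    RE.comp re_L (f := fun y : ℕ => (y.unpair.1, y.unpair.2)) (by fun_prop)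
  obtain ⟨f, hf, hf1⟩ := hK.2 _ hL
  refine ⟨fun y D => (y.unpair.2 = 0 ∨ L y.unpair.1 (y.unpair.2 - 1)) ∧
    D = [2 * y.unpair.1, 2 * f y + 1], ?_, ⟨2, fun y => ?_⟩, ?_⟩
  · show REPred fun p : ℕ × List ℕ => (p.1.unpair.2 = 0 ∨ L p.1.unpair.1 (p.1.unpair.2 - 1)) ∧
      p.2 = [2 * p.1.unpair.1, 2 * f p.1 + 1]
    have hf' : Computable fun p : ℕ × List ℕ => f p.1 := hf.comp Computable.fst
    refine RE.and (RE.or (RE.eq (by fun_prop) (by fun_prop)) ?_) (RE.eq (by fun_prop) (by fun_prop))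
    exact RE.comp re_L (f := fun p : ℕ × List ℕ => (p.1.unpair.1, p.1.unpair.2 - 1)) (by fun_prop)
  · rw [encard_le_iff]
    refine ⟨{2 * y.unpair.1, 2 * f y + 1}, ?_, Finset.card_le_two⟩
    rintro z ⟨D, ⟨-, rfl⟩, hz⟩
    simpa using hz
  · ext y
    constructor
    · rintro ⟨h1, h2⟩
      obtain ⟨h3, h4⟩ := ii_eq_iff.1 h2
      refine ⟨_, ⟨h3, rfl⟩, fun z hz => ?_⟩
      simp only [List.mem_cons, List.not_mem_nil, or_false] at hz
      rcases hz with rfl | rfl
      · exact even_mem_jn.2 h1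
      · rw [odd_mem_jn, Set.mem_compl_iff, ← hf1]
        exact h4
    · rintro ⟨D, ⟨h3, rfl⟩, h5⟩
      have h6 := even_mem_jn.1 (h5 (2 * y.unpair.1) (by simp))
      have h7 := odd_mem_jn.1 (h5 (2 * f y + 1) (by simp))
      rw [Set.mem_compl_iff, ← hf1] at h7
      exact ⟨h6, ii_eq_iff.2 ⟨h3, h7⟩⟩

/-- first family of sets -/
def Fam1 (K : Set ℕ) (e : ℕ) : Set (Set ℕ) := {C | AC C = app (opr e) Kᶜ}

theorem fam1_subsingleton (K : Set ℕ) (e : ℕ) : (Fam1 K e).Subsingleton := by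
  intro C hC C' hC'
  have h : AC C = AC C' := Eq.trans hC (Eq.symm hC')
  ext z
  rw [← mem_AC (C := C), ← mem_AC (C := C'), h]

/-- second family of sets -/
def Fam2 (K : Set ℕ) (e n : ℕ) (t : Finset ℕ) : Set (Set ℕ) :=
  {C | C = app (opr e) (jn (AC C) Kᶜ) ∧ (∀ x, (supp (opr e) x).encard ≤ n) ∧
    ∀ z < max e n, z ∈ C ↔ z ∈ t}

theorem fam2_subsingleton (K : Set ℕ) (e n : ℕ) (t : Finset ℕ) :
    (Fam2 K e n t).Subsingleton := by
  intro C hC C' hC'
  obtain ⟨h1, h2, h3⟩ := hC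
  obtain ⟨h1', -, h3'⟩ := hC'
  have key : ∀ z, z ∈ C ↔ z ∈ C' := by
    intro z
    induction z using Nat.strong_induction_on with
    | _ z ih =>
      by_cases hz : z < max e n
      · rw [h3 z hz, h3' z hz]
      · have hze : e ≤ z := by omega
        have hzn : n ≤ z := by omega
        rw [h1, h1']
        have h4 : ∀ D, opr e z D → ∀ y ∈ D, (y ∈ jn (AC C) Kᶜ ↔ y ∈ jn (AC C') Kᶜ) := by
          intro D hD y hy
          rcases Nat.even_or_odd' y with ⟨w, rfl | rfl⟩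
          · rw [even_mem_jn, even_mem_jn]
            by_cases hw : w.unpair.1 < z
            · show w.unpair.1 ∈ C ∧ _ ↔ w.unpair.1 ∈ C' ∧ _
              rw [ih _ hw]
            · have h5 : w.unpair.2 < ii w.unpair.1 := by
                refine lt_ii (x := z) h2 (by omega) (by omega) (by omega) ?_
                rw [Nat.pair_unpair]
                exact ⟨D, hD, hy⟩
              constructor
              · rintro ⟨-, h6⟩; omega
              · rintro ⟨-, h6⟩; omega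
          · rw [odd_mem_jn, odd_mem_jn]
        constructor
        · rintro ⟨D, hD, h5⟩
          exact ⟨D, hD, fun y hy => (h4 D hD y hy).1 (h5 y hy)⟩
        · rintro ⟨D, hD, h5⟩
          exact ⟨D, hD, fun y hy => (h4 D hD y hy).2 (h5 y hy)⟩
  ext z
  exact key z

/-- `C` is a minimal cover of `B`. -/
def MinCover (B C : Set ℕ) : Prop :=
  Btte B C ∧ ¬ Btte C B ∧ ∀ D, Btte B D → Btte D C → Btte D B ∨ Btte C D

theorem countable_minCover {K : Set ℕ} (hK : MComplete K) :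
    {C | MinCover Kᶜ C}.Countable := by
  classical
  have hc : ((⋃ e, Fam1 K e) ∪ ⋃ e, ⋃ n, ⋃ t, Fam2 K e n t).Countable := by
    refine Set.Countable.union (Set.countable_iUnion fun e => (fam1_subsingleton K e).countable) ?_
    exact Set.countable_iUnion fun e => Set.countable_iUnion fun n => Set.countable_iUnion fun t =>
      (fam2_subsingleton K e n t).countable
  refine hc.mono ?_
  rintro C ⟨h1, h2, h3⟩
  have h4 := h3 (jn (AC C) Kᶜ) (le_jn_right _ _) (AC_le hK h1)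
  rcases h4 with h4 | h4
  · left
    obtain ⟨Ψ, h5, h6, h7⟩ := (le_jn_left (AC C) Kᶜ).trans h4
    obtain ⟨e, rfl⟩ := exists_opr h5
    exact Set.mem_iUnion.2 ⟨e, h7⟩
  · right
    obtain ⟨Ψ, h5, ⟨n, h6⟩, h7⟩ := h4
    obtain ⟨e, rfl⟩ := exists_opr h5
    refine Set.mem_iUnion.2 ⟨e, Set.mem_iUnion.2 ⟨n, Set.mem_iUnion.2
      ⟨(Finset.range (max e n)).filter (· ∈ C), h7, h6, fun z hz => ?_⟩⟩⟩
    rw [Finset.mem_filter, Finset.mem_range]
    exact ⟨fun h => ⟨hz, h⟩, fun h => h.2⟩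

theorem mcomplete_halt : MComplete Halt := by
  refine ⟨?_, fun S hS => ?_⟩
  · exact RE.comp Alg.re_W (f := fun e : ℕ => (e, e)) (by fun_prop)
  · have h1 : REPred fun p : ℕ × ℕ => S p.1 := RE.comp hS Computable.fst
    obtain ⟨f, hf, h2⟩ := Alg.smn_idx (P := fun e _ => S e) h1
    refine ⟨f, hf, fun e => ?_⟩
    have h3 : f e ∈ Alg.W (f e) ↔ S e := by
      rw [h2]
      rfl
    exact h3.symm

end Pool.Agent.X235.Btte
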