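import Pool.Agent.X235.Btte.Defs
import Pool.Agent.X235.Alg.Ce

set_option autoImplicit false

/-!
`≤_btte` is a preorder; joins.
-/

namespace Pool.Agent.X235.Btte

open Encodable Pool.Agent.Helper446

theorem encard_le_iff {S : Set ℕ} {n : ℕ} :
    S.encard ≤ n ↔ ∃ t : Finset ℕ, S ⊆ t ∧ t.card ≤ n := by
  constructor
  · intro h
    have hf := Set.finite_of_encard_le_coe h
    refine ⟨hf.toFinset, by simp, ?_⟩
    rw [hf.encard_eq_coe_toFinset_card] at h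
    exact_mod_cast h
  · rintro ⟨t, h1, h2⟩
    refine (Set.encard_le_encard h1).trans ?_
    rw [Set.encard_coe_eq_coe_finsetCard]
    exact_mod_cast h2

theorem Btte.refl (A : Set ℕ) : Btte A A := by
  refine ⟨fun x D => D = [x], ?_, ⟨1, fun x => ?_⟩, ?_⟩
  · show REPred fun p : ℕ × List ℕ => p.2 = [p.1]
    exact RE.eq (by fun_prop) (by fun_prop)
  · rw [encard_le_iff]
    refine ⟨{x}, ?_, by simp⟩
    rintro y ⟨D, rfl, h⟩
    simpa using h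
  · ext x
    constructor
    · intro h
      exact ⟨[x], rfl, fun y hy => by simp at hy; rw [hy]; exact h⟩
    · rintro ⟨D, rfl, h⟩
      exact h x (by simp)

/-- composition of operators -/
def comp (Ψ Φ : Oper) : Oper := fun x D =>
  ∃ L : List (ℕ × List ℕ), Ψ x (L.map Prod.fst) ∧ (∀ p ∈ L, Φ p.1 p.2) ∧
    D = (L.map Prod.snd).flatten

theorem app_comp (Ψ Φ : Oper) (C : Set ℕ) : app (comp Ψ Φ) C = app Ψ (app Φ C) := by
  classical
  ext x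
  constructor
  · rintro ⟨D, ⟨L, h1, h2, rfl⟩, h3⟩
    refine ⟨_, h1, fun y hy => ?_⟩
    obtain ⟨p, hp, rfl⟩ := List.mem_map.1 hy
    refine ⟨p.2, h2 p hp, fun z hz => h3 z ?_⟩
    rw [List.mem_flatten]
    exact ⟨p.2, List.mem_map.2 ⟨p, hp, rfl⟩, hz⟩
  · rintro ⟨D, h1, h2⟩
    let f : ℕ → List ℕ := fun y => if h : y ∈ app Φ C then h.choose else []
    have hf : ∀ y ∈ D, Φ y (f y) ∧ ∀ z ∈ f y, z ∈ C := by
      intro y hy
      have h3 : y ∈ app Φ C := h2 y hy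
      simp only [f]
      rw [dif_pos h3]
      exact h3.choose_spec
    refine ⟨_, ⟨D.map fun y => (y, f y), ?_, ?_, rfl⟩, ?_⟩
    · rw [List.map_map]
      have : (Prod.fst ∘ fun y => (y, f y)) = id := rfl
      rw [this, List.map_id]
      exact h1
    · intro p hp
      obtain ⟨y, hy, rfl⟩ := List.mem_map.1 hp
      exact (hf y hy).1
    · intro z hz
      rw [List.mem_flatten] at hz
      obtain ⟨l, hl, hz⟩ := hz
      rw [List.map_map, List.mem_map] at hl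
      obtain ⟨y, hy, rfl⟩ := hl
      exact (hf y hy).2 z hz

theorem comp_enum {Ψ Φ : Oper} (h1 : IsEnum Ψ) (h2 : IsEnum Φ) : IsEnum (comp Ψ Φ) := by
  show REPred fun p : ℕ × List ℕ => ∃ L : List (ℕ × List ℕ), Ψ p.1 (L.map Prod.fst) ∧
    (∀ p ∈ L, Φ p.1 p.2) ∧ p.2 = (L.map Prod.snd).flatten
  refine RE.ex (p := fun (p : ℕ × List ℕ) (L : List (ℕ × List ℕ)) => Ψ p.1 (L.map Prod.fst) ∧
    (∀ p ∈ L, Φ p.1 p.2) ∧ p.2 = (L.map Prod.snd).flatten) ?_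
  refine RE.and ?_ (RE.and ?_ (RE.eq (by fun_prop) ?_))
  · exact RE.comp h1 (f := fun x : (ℕ × List ℕ) × List (ℕ × List ℕ) =>
      (x.1.1, x.2.map Prod.fst)) (by fun_prop)
  · refine RE.all_mem (p := fun (x : (ℕ × List ℕ) × List (ℕ × List ℕ)) (q : ℕ × List ℕ) =>
      Φ q.1 q.2) (l := fun x => x.2) ?_ (by fun_prop)
    exact RE.comp h2 (f := fun x : ((ℕ × List ℕ) × List (ℕ × List ℕ)) × (ℕ × List ℕ) =>
      (x.2.1, x.2.2)) (by fun_prop)
  · have h3 : Computable fun x : (ℕ × List ℕ) × List (ℕ × List ℕ) => x.2.map Prod.snd := by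
      fun_prop
    exact (Primrec.list_flatten.to_comp).comp h3

theorem Btte.trans {A B C : Set ℕ} (hAB : Btte A B) (hBC : Btte B C) : Btte A C := by
  classical
  obtain ⟨Ψ, h1, ⟨n, h2⟩, rfl⟩ := hAB
  obtain ⟨Φ, h3, ⟨m, h4⟩, rfl⟩ := hBC
  refine ⟨comp Ψ Φ, comp_enum h1 h3, ⟨n * m, fun x => ?_⟩, (app_comp Ψ Φ C).symm⟩
  obtain ⟨t, ht1, ht2⟩ := encard_le_iff.1 (h2 x)
  choose s hs1 hs2 using fun y => encard_le_iff.1 (h4 y)
  rw [show ((n * m : ℕ) : ℕ∞) = ((n * m : ℕ) : ℕ∞) from rfl, encard_le_iff]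
  refine ⟨t.biUnion s, ?_, ?_⟩
  · rintro z ⟨D, ⟨L, h5, h6, rfl⟩, hz⟩
    rw [List.mem_flatten] at hz
    obtain ⟨l, hl, hz⟩ := hz
    obtain ⟨p, hp, rfl⟩ := List.mem_map.1 hl
    rw [Finset.coe_biUnion, Set.mem_iUnion₂]
    exact ⟨p.1, ht1 ⟨_, h5, List.mem_map.2 ⟨p, hp, rfl⟩⟩, hs1 p.1 ⟨p.2, h6 p hp, hz⟩⟩
  · refine (Finset.card_biUnion_le_card_mul t s m fun y _ => hs2 y).trans ?_
    exact Nat.mul_le_mul_right m ht2

/-- the join -/
def jn (A B : Set ℕ) : Set ℕ := {x | (x % 2 = 0 ∧ x / 2 ∈ A) ∨ (x % 2 = 1 ∧ x / 2 ∈ B)}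

theorem even_mem_jn {A B : Set ℕ} {x : ℕ} : 2 * x ∈ jn A B ↔ x ∈ A := by
  constructor
  · rintro (⟨h1, h2⟩ | ⟨h1, h2⟩)
    · rwa [Nat.mul_div_cancel_left x (by norm_num)] at h2
    · omega
  · intro h
    exact Or.inl ⟨by omega, by rwa [Nat.mul_div_cancel_left x (by norm_num)]⟩

theorem odd_mem_jn {A B : Set ℕ} {x : ℕ} : 2 * x + 1 ∈ jn A B ↔ x ∈ B := by
  have h0 : (2 * x + 1) / 2 = x := by omega
  constructor
  · rintro (⟨h1, h2⟩ | ⟨h1, h2⟩)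
    · omega
    · rwa [h0] at h2
  · intro h
    exact Or.inr ⟨by omega, by rwa [h0]⟩

/-- reductions given by one query -/
theorem Btte.of_query {A B : Set ℕ} {f : ℕ → ℕ} (hf : Computable f) (h : ∀ x, x ∈ A ↔ f x ∈ B) :
    Btte A B := by
  refine ⟨fun x D => D = [f x], ?_, ⟨1, fun x => ?_⟩, ?_⟩
  · show REPred fun p : ℕ × List ℕ => p.2 = [f p.1]
    have : Computable fun p : ℕ × List ℕ => f p.1 := hf.comp Computable.fst
    exact RE.eq (by fun_prop) (by fun_prop)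
  · rw [encard_le_iff]
    refine ⟨{f x}, ?_, by simp⟩
    rintro y ⟨D, rfl, h⟩
    simpa using h
  · ext x
    rw [h x]
    constructor
    · intro h
      exact ⟨[f x], rfl, fun y hy => by simp at hy; rw [hy]; exact h⟩
    · rintro ⟨D, rfl, h⟩
      exact h (f x) (by simp)

theorem le_jn_left (A B : Set ℕ) : Btte A (jn A B) :=
  Btte.of_query (f := fun x => 2 * x) (by fun_prop) fun x => even_mem_jn.symm

theorem le_jn_right (A B : Set ℕ) : Btte B (jn A B) :=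
  Btte.of_query (f := fun x => 2 * x + 1) (by fun_prop) fun x => odd_mem_jn.symm

@[fun_prop] theorem cdiv {α : Type*} [Primcodable α] {f g : α → ℕ} (hf : Computable f)
    (hg : Computable g) : Computable fun x => f x / g x := Primrec.nat_div.to_comp.comp hf hg

@[fun_prop] theorem cmod {α : Type*} [Primcodable α] {f g : α → ℕ} (hf : Computable f)
    (hg : Computable g) : Computable fun x => f x % g x := Primrec.nat_mod.to_comp.comp hf hg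

theorem jn_le {A B C : Set ℕ} (hA : Btte A C) (hB : Btte B C) : Btte (jn A B) C := by
  classical
  obtain ⟨Ψ, h1, ⟨n, h2⟩, rfl⟩ := hA
  obtain ⟨Φ, h3, ⟨m, h4⟩, rfl⟩ := hB
  refine ⟨fun x D => (x % 2 = 0 ∧ Ψ (x / 2) D) ∨ (x % 2 = 1 ∧ Φ (x / 2) D), ?_,
    ⟨n + m, fun x => ?_⟩, ?_⟩
  · show REPred fun p : ℕ × List ℕ => (p.1 % 2 = 0 ∧ Ψ (p.1 / 2) p.2) ∨
      (p.1 % 2 = 1 ∧ Φ (p.1 / 2) p.2)
    refine RE.or (RE.and (RE.eq (by fun_prop) (by fun_prop)) ?_)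
      (RE.and (RE.eq (by fun_prop) (by fun_prop)) ?_)
    · exact RE.comp h1 (f := fun p : ℕ × List ℕ => (p.1 / 2, p.2)) (by fun_prop)
    · exact RE.comp h3 (f := fun p : ℕ × List ℕ => (p.1 / 2, p.2)) (by fun_prop)
  · obtain ⟨t, ht1, ht2⟩ := encard_le_iff.1 (h2 (x / 2))
    obtain ⟨s, hs1, hs2⟩ := encard_le_iff.1 (h4 (x / 2))
    rw [show ((n + m : ℕ) : ℕ∞) = ((n + m : ℕ) : ℕ∞) from rfl, encard_le_iff]
    refine ⟨t ∪ s, ?_, (Finset.card_union_le _ _).trans (Nat.add_le_add ht2 hs2)⟩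
    rintro y ⟨D, (⟨-, h5⟩ | ⟨-, h5⟩), hy⟩
    · rw [Finset.coe_union]; exact Or.inl (ht1 ⟨D, h5, hy⟩)
    · rw [Finset.coe_union]; exact Or.inr (hs1 ⟨D, h5, hy⟩)
  · ext x
    constructor
    · rintro (⟨h5, D, h6, h7⟩ | ⟨h5, D, h6, h7⟩)
      · exact ⟨D, Or.inl ⟨h5, h6⟩, h7⟩
      · exact ⟨D, Or.inr ⟨h5, h6⟩, h7⟩
    · rintro ⟨D, (⟨h5, h6⟩ | ⟨h5, h6⟩), h7⟩
      · exact Or.inl ⟨h5, D, h6, h7⟩
      · exact Or.inr ⟨h5, D, h6, h7⟩

end Pool.Agent.X235.Btte
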