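import Pool.Agent.X235.Btte.Pre

set_option autoImplicit false

/-!
A function, approximable from below, which exceeds all second coordinates of queries of
operators with bounded support.
-/

namespace Pool.Agent.X235.Btte

open Encodable Pool.Agent.Helper446

/-- stage `s` of the operator with index `e` -/
def stg (e s x : ℕ) (D : List ℕ) : Bool := RE.wst (ℕ × List ℕ) e s (x, D)

theorem stg_mono {e s t x : ℕ} {D : List ℕ} (h : s ≤ t) (h1 : stg e s x D = true) :
    stg e t x D = true := RE.wst_mono h h1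

/-- the operator with index `e` -/
def opr (e : ℕ) : Oper := fun x D => ∃ s, stg e s x D = true

theorem exists_opr {Ψ : Oper} (h : IsEnum Ψ) : ∃ e, Ψ = opr e := by
  obtain ⟨e, he⟩ := RE.wst_univ h
  refine ⟨e, ?_⟩
  funext x D
  exact propext (he (x, D))

theorem stg_bound {e s x : ℕ} {D : List ℕ} (h : stg e s x D = true) : encode D < s := by
  unfold stg RE.wst at h
  obtain ⟨y, hy⟩ := Option.isSome_iff_exists.1 h
  have h1 := Nat.Partrec.Code.evaln_bound (Option.mem_def.2 hy)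
  have h2 : encode D ≤ encode (x, D) := by
    rw [Encodable.encode_prod_val]
    exact Nat.right_le_pair _ _
  exact lt_of_le_of_lt h2 h1

/-- support at stage `s` -/
def Sp (e s x i : ℕ) : Prop := ∃ D, stg e s x D = true ∧ i ∈ D

theorem Sp_mono {e s t x i : ℕ} (h : s ≤ t) (h1 : Sp e s x i) : Sp e t x i := by
  obtain ⟨D, h2, h3⟩ := h1
  exact ⟨D, stg_mono h h2, h3⟩

theorem supp_iff {e x i : ℕ} : i ∈ supp (opr e) x ↔ ∃ s, Sp e s x i := by
  constructor
  · rintro ⟨D, ⟨s, hs⟩, hi⟩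
    exact ⟨s, D, hs, hi⟩
  · rintro ⟨s, D, hs, hi⟩
    exact ⟨D, ⟨s, hs⟩, hi⟩

/-- the support at stage `s` is contained in the list `l` -/
def Inl (e s x : ℕ) (l : List ℕ) : Prop := ∀ i, Sp e s x i → i ∈ l

theorem inl_iff {e s x : ℕ} {l : List ℕ} : Inl e s x l ↔ ∀ k < s,
    stg e s x ((decode (α := List ℕ) k).getD []) = false ∨
      ∀ i ∈ (decode (α := List ℕ) k).getD [], i ∈ l := by
  constructor
  · intro h k hk
    by_cases h1 : stg e s x ((decode (α := List ℕ) k).getD []) = true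
    · exact Or.inr fun i hi => h i ⟨_, h1, hi⟩
    · exact Or.inl (by simpa using h1)
  · rintro h i ⟨D, h1, h2⟩
    have h3 := h (encode D) (stg_bound h1)
    rw [encodek, Option.getD_some] at h3
    rcases h3 with h3 | h3
    · rw [h1] at h3; exact absurd h3 (by simp)
    · exact h3 i h2

/-- `u < i(m)` -/
def L (m u : ℕ) : Prop := ∃ s e x : ℕ, ∃ l : List ℕ, ∃ v : ℕ, ∃ D : List ℕ,
  e ≤ m ∧ x ≤ m ∧ l.length ≤ m ∧ Inl e s x l ∧ u ≤ v ∧ stg e s x D = true ∧
    2 * Nat.pair m v ∈ D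

theorem cgetD {α : Type} [Primcodable α] {f : α → ℕ} (hf : Computable f) :
    Computable fun a => (decode (α := List ℕ) (f a)).getD [] := by
  have h : Primrec fun n : ℕ => (decode (α := List ℕ) n).getD [] :=
    Primrec.option_getD.comp Primrec.decode (Primrec.const [])
  exact h.to_comp.comp hf

theorem cstg {α : Type} [Primcodable α] {e s x : α → ℕ} {D : α → List ℕ} (he : Computable e)
    (hs : Computable s) (hx : Computable x) (hD : Computable D) :
    Computable fun a => stg (e a) (s a) (x a) (D a) := by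
  unfold stg
  exact RE.wst_comp.comp (f := fun p : (ℕ × ℕ) × (ℕ × List ℕ) => RE.wst _ p.1.1 p.1.2 p.2)
    (g := fun a => ((e a, s a), (x a, D a))) (by fun_prop)

theorem re_inl {α : Type} [Primcodable α] {e s x : α → ℕ} {l : α → List ℕ} (he : Computable e)
    (hs : Computable s) (hx : Computable x) (hl : Computable l) :
    REPred fun a => Inl (e a) (s a) (x a) (l a) := by
  have h1 : REPred fun a : α => ∀ k < s a,
      stg (e a) (s a) (x a) ((decode (α := List ℕ) k).getD []) = false ∨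
        ∀ i ∈ (decode (α := List ℕ) k).getD [], i ∈ l a := by
    refine RE.all_lt (p := fun (a : α) k =>
      stg (e a) (s a) (x a) ((decode (α := List ℕ) k).getD []) = false ∨
        ∀ i ∈ (decode (α := List ℕ) k).getD [], i ∈ l a) (RE.or (RE.eq ?_ (by fun_prop)) ?_) hs
    · exact cstg (by fun_prop) (by fun_prop) (by fun_prop) (cgetD Computable.snd)
    · refine RE.all_mem (p := fun (y : α × ℕ) i => i ∈ l y.1)
        (l := fun y => (decode (α := List ℕ) y.2).getD []) ?_ (cgetD Computable.snd)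
      exact RE.mem_list (by fun_prop) (by fun_prop)
  exact h1.of_eq fun a => inl_iff.symm

theorem re_L : REPred fun p : ℕ × ℕ => L p.1 p.2 := by
  have h1 : REPred fun p : ℕ × ℕ => ∃ q : ((ℕ × ℕ) × (ℕ × List ℕ)) × (ℕ × List ℕ),
      q.1.1.2 ≤ p.1 ∧ q.1.2.1 ≤ p.1 ∧ q.1.2.2.length ≤ p.1 ∧
        Inl q.1.1.2 q.1.1.1 q.1.2.1 q.1.2.2 ∧ p.2 ≤ q.2.1 ∧
        stg q.1.1.2 q.1.1.1 q.1.2.1 q.2.2 = true ∧ 2 * Nat.pair p.1 q.2.1 ∈ q.2.2 := by
    refine RE.ex (p := fun (p : ℕ × ℕ) (q : ((ℕ × ℕ) × (ℕ × List ℕ)) × (ℕ × List ℕ)) =>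
      q.1.1.2 ≤ p.1 ∧ q.1.2.1 ≤ p.1 ∧ q.1.2.2.length ≤ p.1 ∧
        Inl q.1.1.2 q.1.1.1 q.1.2.1 q.1.2.2 ∧ p.2 ≤ q.2.1 ∧
        stg q.1.1.2 q.1.1.1 q.1.2.1 q.2.2 = true ∧ 2 * Nat.pair p.1 q.2.1 ∈ q.2.2) ?_
    refine RE.and (RE.le (by fun_prop) (by fun_prop)) (RE.and (RE.le (by fun_prop) (by fun_prop))
      (RE.and (RE.le (by fun_prop) (by fun_prop)) (RE.and ?_
      (RE.and (RE.le (by fun_prop) (by fun_prop)) (RE.and (RE.of_bool ?_) ?_)))))
    · exact re_inl (by fun_prop) (by fun_prop) (by fun_prop) (by fun_prop)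
    · exact cstg (by fun_prop) (by fun_prop) (by fun_prop) (by fun_prop)
    · exact RE.mem_list (by fun_prop) (by fun_prop)
  refine h1.of_eq fun p => ?_
  constructor
  · rintro ⟨⟨⟨⟨s, e⟩, x, l⟩, v, D⟩, h⟩
    exact ⟨s, e, x, l, v, D, h⟩
  · rintro ⟨s, e, x, l, v, D, h⟩
    exact ⟨⟨⟨⟨s, e⟩, x, l⟩, v, D⟩, h⟩

theorem L_anti {m u v : ℕ} (h : u ≤ v) (hL : L m v) : L m u := by
  obtain ⟨s, e, x, l, w, D, h1, h2, h3, h4, h5, h6⟩ := hL
  exact ⟨s, e, x, l, w, D, h1, h2, h3, h4, h.trans h5, h6⟩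

/-- the part of the support which is used -/
def Fu (m e x : ℕ) : Set ℕ := {i | ∃ s, ∃ l : List ℕ, l.length ≤ m ∧ Inl e s x l ∧ Sp e s x i}

theorem Fu_finite (m e x : ℕ) : (Fu m e x).Finite := by
  classical
  by_contra hinf
  obtain ⟨t, ht, hc⟩ := Set.Infinite.exists_subset_card_eq hinf (m + 1)
  -- stages
  have h1 : ∀ i : ℕ, ∃ s, i ∈ t → ∃ l : List ℕ, l.length ≤ m ∧ Inl e s x l ∧ Sp e s x i := by
    intro i
    by_cases hi : i ∈ t
    · obtain ⟨s, l, h⟩ := ht hi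
      exact ⟨s, fun _ => ⟨l, h⟩⟩
    · exact ⟨0, fun h => absurd h hi⟩
  choose s hs using h1
  have hne : t.Nonempty := by
    rw [← Finset.card_pos, hc]; omega
  obtain ⟨j, hj, hmax⟩ := Finset.exists_max_image t s hne
  obtain ⟨l, hl, h2, -⟩ := hs j hj
  have h3 : t ⊆ l.toFinset := by
    intro i hi
    rw [List.mem_toFinset]
    obtain ⟨-, -, -, h4⟩ := hs i hi
    exact h2 i (Sp_mono (hmax i hi) h4)
  have h4 := (Finset.card_le_card h3).trans (List.toFinset_card_le l)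
  omega

theorem L_bdd (m : ℕ) : ∃ b, ∀ u, L m u → u < b := by
  classical
  have h1 : (⋃ e ∈ Set.Iic m, ⋃ x ∈ Set.Iic m, Fu m e x).Finite :=
    (Set.finite_Iic m).biUnion fun e _ => (Set.finite_Iic m).biUnion fun x _ => Fu_finite m e x
  obtain ⟨b, hb⟩ := h1.bddAbove
  refine ⟨b + 1, fun u hu => ?_⟩
  obtain ⟨s, e, x, l, v, D, h2, h3, h4, h5, h6, h7, h8⟩ := hu
  have h9 : 2 * Nat.pair m v ∈ (⋃ e ∈ Set.Iic m, ⋃ x ∈ Set.Iic m, Fu m e x) := by
    rw [Set.mem_iUnion₂]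
    refine ⟨e, h2, ?_⟩
    rw [Set.mem_iUnion₂]
    exact ⟨x, h3, s, l, h4, h5, D, h7, h8⟩
  have h10 := hb h9
  have h11 : v ≤ Nat.pair m v := Nat.right_le_pair _ _
  omega

/-- the function -/
noncomputable def ii (m : ℕ) : ℕ := sInf {u | ¬ L m u}

theorem L_iff {m u : ℕ} : L m u ↔ u < ii m := by
  obtain ⟨b, hb⟩ := L_bdd m
  have hne : {u | ¬ L m u}.Nonempty := ⟨b, fun h => lt_irrefl b (hb b h)⟩
  constructor
  · intro h
    by_contra hcon
    exact Nat.sInf_mem hne (L_anti (not_lt.1 hcon) h)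
  · intro h
    by_contra hcon
    exact absurd (Nat.sInf_le (s := {u | ¬ L m u}) hcon) (not_le.2 h)

/-- The function exceeds the second coordinates of all queries asked at a smaller argument. -/
theorem lt_ii {e n m v x : ℕ} (hn : ∀ x, (supp (opr e) x).encard ≤ n) (he : e ≤ m) (hm : n ≤ m)
    (hx : x ≤ m) (h : 2 * Nat.pair m v ∈ supp (opr e) x) : v < ii m := by
  classical
  rw [← L_iff]
  obtain ⟨t, ht1, ht2⟩ := encard_le_iff.1 (hn x)
  obtain ⟨s, D, h1, h2⟩ := supp_iff.1 h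
  refine ⟨s, e, x, t.toList, v, D, he, hx, ?_, ?_, le_rfl, h1, h2⟩
  · rw [Finset.length_toList]; omega
  · intro i hi
    rw [Finset.mem_toList]
    exact ht1 (supp_iff.2 ⟨s, hi⟩)

end Pool.Agent.X235.Btte
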